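import Mathlib

/-!
Toroidal placements and pandiagonal colourings.
-/

namespace Pool.Agent.KS6_19.CP.Tor

open Finset

variable {n : ℕ} [NeZero n]

/-- number of solutions of `a i = m` -/
def g (a m : ZMod n) : ℕ := (univ.filter fun i : ZMod n => a * i = m).card

lemma g_sub (a m t c : ZMod n) (h : a * t = c) : g a (m - c) = g a m := by
  unfold g
  refine card_bij (fun i _ => i + t) ?_ ?_ ?_
  · intro i hi
    rw [mem_filter] at hi ⊢
    refine ⟨mem_univ _, ?_⟩
    rw [mul_add, hi.2, h]; ring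
  · intro i _ j _ hij
    exact add_right_cancel hij
  · intro j hj
    rw [mem_filter] at hj
    refine ⟨j - t, ?_, by ring⟩
    rw [mem_filter]
    exact ⟨mem_univ _, by rw [mul_sub, hj.2, h]⟩

lemma sum_g (a w : ZMod n) : ∑ k : ZMod n, g a (k - w) = n := by
  have h1 : ∑ k : ZMod n, g a (k - w) = ∑ k : ZMod n, g a k :=
    Fintype.sum_equiv (Equiv.subRight w) _ _ (fun k => rfl)
  rw [h1]
  have h2 := card_eq_sum_card_fiberwise (s := (univ : Finset (ZMod n)))
    (t := (univ : Finset (ZMod n))) (f := fun i => a * i) (fun _ _ => by simp)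
  rw [card_univ, ZMod.card] at h2
  exact h2.symm

/-- a window of length `c` of right-hand sides has `c` solutions, if `c` is divisible by `a` -/
lemma window (a : ZMod n) (c u : ℕ) (t : ZMod n) (h : a * t = (c : ZMod n)) (k : ZMod n) :
    ∑ s ∈ range c, g a (k - ((u + s : ℕ) : ZMod n)) = c := by
  set G : ZMod n → ℕ := fun k => ∑ s ∈ range c, g a (k - ((u + s : ℕ) : ZMod n)) with hG
  have hstep : ∀ k, G (k + 1) = G k := by
    intro k
    have e1 : G k + g a (k - ((u + c : ℕ) : ZMod n)) =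
        ∑ s ∈ range (c + 1), g a (k - ((u + s : ℕ) : ZMod n)) := by
      rw [sum_range_succ]
    have e2 : G k + g a (k - ((u + c : ℕ) : ZMod n)) =
        (∑ s ∈ range c, g a (k - ((u + (s + 1) : ℕ) : ZMod n))) + g a (k - ((u + 0 : ℕ) : ZMod n)) := by
      rw [e1, sum_range_succ']
    -- shift by one
    have e3 : ∀ k, G (k + 1) + g a (k + 1 - ((u + c : ℕ) : ZMod n)) =
        (∑ s ∈ range c, g a (k - ((u + s : ℕ) : ZMod n))) + g a (k + 1 - ((u + 0 : ℕ) : ZMod n)) := by
      intro k
      have f1 : G (k + 1) + g a (k + 1 - ((u + c : ℕ) : ZMod n)) =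
          ∑ s ∈ range (c + 1), g a (k + 1 - ((u + s : ℕ) : ZMod n)) := by
        rw [sum_range_succ]
      rw [f1, sum_range_succ']
      congr 1
      apply sum_congr rfl
      intro s _
      congr 1
      push_cast
      ring
    have e4 : g a (k + 1 - ((u + c : ℕ) : ZMod n)) = g a (k + 1 - ((u + 0 : ℕ) : ZMod n)) := by
      rw [← g_sub a (k + 1 - ((u + 0 : ℕ) : ZMod n)) t c h]
      congr 1
      push_cast
      ring
    have e5 := e3 k
    rw [e4] at e5
    exact Nat.add_right_cancel e5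
  have hconst : ∀ k, G k = G 0 := by
    intro k
    have h1 : ∀ j : ℕ, G (j : ZMod n) = G 0 := by
      intro j
      induction j with
      | zero => simp
      | succ j ih => rw [Nat.cast_succ, hstep, ih]
    have := h1 k.val
    rwa [ZMod.natCast_zmod_val] at this
  have hsum : ∑ k : ZMod n, G k = n * c := by
    simp only [hG]
    rw [sum_comm]
    simp only [sum_g]
    simp [mul_comm]
  have hsum2 : ∑ k : ZMod n, G k = n * G 0 := by
    rw [sum_congr rfl (fun k _ => hconst k)]
    simp [ZMod.card]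
  have hn : 0 < n := Nat.pos_of_ne_zero (NeZero.ne n)
  have := Nat.eq_of_mul_eq_mul_left hn (hsum2.symm.trans hsum)
  exact (hconst k).trans this

/-- The number of `i` for which `(k - a i) mod n` lies in a window of length `c`. -/
lemma window_card (a : ZMod n) (c u : ℕ) (hu : u + c ≤ n) (t : ZMod n)
    (h : a * t = (c : ZMod n)) (k : ZMod n) :
    (univ.filter fun i : ZMod n => u ≤ (k - a * i).val ∧ (k - a * i).val < u + c).card = c := by
  have h1 : (univ.filter fun i : ZMod n => u ≤ (k - a * i).val ∧ (k - a * i).val < u + c) =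
      (range c).biUnion fun s => univ.filter fun i : ZMod n =>
        a * i = k - ((u + s : ℕ) : ZMod n) := by
    ext i
    simp only [mem_filter, mem_univ, true_and, mem_biUnion, mem_range]
    constructor
    · rintro ⟨h2, h3⟩
      refine ⟨(k - a * i).val - u, by omega, ?_⟩
      rw [Nat.add_sub_cancel' h2, ZMod.natCast_zmod_val]
      ring
    · rintro ⟨s, hs, hi⟩
      have e : k - a * i = ((u + s : ℕ) : ZMod n) := by rw [hi]; ring
      rw [e, ZMod.val_natCast_of_lt (by omega)]
      omega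
  rw [h1, card_biUnion]
  · exact window a c u t h k
  · intro s hs s' hs' hne
    rw [Function.onFun, disjoint_left]
    intro i hi hi'
    rw [mem_filter] at hi hi'
    apply hne
    have e : ((u + s : ℕ) : ZMod n) = ((u + s' : ℕ) : ZMod n) := by
      have h2 := hi.2.symm.trans hi'.2
      linear_combination -h2
    have hs1 := mem_range.1 hs
    have hs2 := mem_range.1 hs'
    have e2 := congrArg ZMod.val e
    rw [ZMod.val_natCast_of_lt (by omega), ZMod.val_natCast_of_lt (by omega)] at e2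
    omega

/-! ### necessary conditions -/

lemma sum_comp_fiber {S : Finset (ZMod n × ZMod n)} {c : ℕ} (L : ZMod n × ZMod n → ZMod n)
    (hL : ∀ k, (S.filter fun x => L x = k).card = c) (f : ZMod n → ZMod n) :
    ∑ x ∈ S, f (L x) = (c : ZMod n) * ∑ k : ZMod n, f k := by
  rw [← sum_fiberwise S L (fun x => f (L x)), mul_sum]
  apply sum_congr rfl
  intro k _
  rw [sum_congr rfl (fun x hx => by rw [(mem_filter.1 hx).2] : ∀ x ∈ S.filter (fun x => L x = k),
    f (L x) = f k), sum_const, hL k, nsmul_eq_mul]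

lemma sum_zmod (f : ℕ → ℕ) (F : ZMod n → ZMod n) (h : ∀ i : ℕ, F (i : ZMod n) = (f i : ZMod n)) :
    ∑ k : ZMod n, F k = ((∑ i ∈ range n, f i : ℕ) : ZMod n) := by
  push_cast
  symm
  refine sum_bij (fun i _ => (i : ZMod n)) (fun _ _ => mem_univ _) ?_ ?_ ?_
  · intro i hi j hj hij
    have := congrArg ZMod.val hij
    rwa [ZMod.val_natCast_of_lt (mem_range.1 hi), ZMod.val_natCast_of_lt (mem_range.1 hj)] at this
  · intro k _
    exact ⟨k.val, mem_range.2 k.val_lt, by simp⟩
  · intro i _
    exact (h i).symm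

lemma six_sum (n : ℕ) : 6 * ((∑ i ∈ range n, i ^ 2 : ℕ) : ℤ) = n * (n - 1) * (2 * n - 1) := by
  induction n with
  | zero => simp
  | succ n ih =>
    rw [sum_range_succ]
    push_cast at ih ⊢
    linear_combination ih

lemma two_sum (n : ℕ) : 2 * ((∑ i ∈ range n, i : ℕ) : ℤ) = n * (n - 1) := by
  induction n with
  | zero => simp
  | succ n ih =>
    rw [sum_range_succ]
    push_cast at ih ⊢
    linear_combination ih

/-- necessity, for exact sets -/
lemma necessary {S : Finset (ZMod n × ZMod n)} {c : ℕ}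
    (h1 : ∀ k, (S.filter fun x => x.1 = k).card = c)
    (h2 : ∀ k, (S.filter fun x => x.2 = k).card = c)
    (h3 : ∀ k, (S.filter fun x => x.1 + x.2 = k).card = c)
    (h4 : ∀ k, (S.filter fun x => x.1 - x.2 = k).card = c) :
    (2 ∣ n → 2 ∣ c) ∧ (3 ∣ n → 3 ∣ c) := by
  have hn0 : n ≠ 0 := NeZero.ne n
  constructor
  · rintro ⟨u, hu⟩
    have a1 := sum_comp_fiber (fun x => x.1) h1 (fun k => k)
    have a2 := sum_comp_fiber (fun x => x.2) h2 (fun k => k)
    have a3 := sum_comp_fiber (fun x => x.1 + x.2) h3 (fun k => k)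
    rw [sum_add_distrib, a1, a2] at a3
    have a5 : (c : ZMod n) * ∑ k : ZMod n, k = 0 := by linear_combination a3
    rw [sum_zmod (fun i => i) (fun k => k) (fun i => rfl), ← Nat.cast_mul,
      ZMod.natCast_eq_zero_iff] at a5
    obtain ⟨q, hq⟩ := a5
    have h6 := two_sum n
    have h7 : (n : ℤ) * (2 * q) = n * (c * (n - 1)) := by
      have : ((c * ∑ i ∈ range n, i : ℕ) : ℤ) = ((n * q : ℕ) : ℤ) := by rw [hq]
      push_cast at this h6 ⊢
      linear_combination (-2) * this + (c : ℤ) * h6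
    have h8 : (2 : ℤ) * q = c * (n - 1) :=
      mul_left_cancel₀ (by exact_mod_cast hn0) h7
    have h9 : (2 : ℤ) ∣ c := ⟨c * u - q, by rw [hu] at h8; push_cast at h8; linear_combination h8⟩
    exact_mod_cast h9
  · rintro ⟨u, hu⟩
    have a1 := sum_comp_fiber (fun x => x.1) h1 (fun k => k ^ 2)
    have a2 := sum_comp_fiber (fun x => x.2) h2 (fun k => k ^ 2)
    have a3 := sum_comp_fiber (fun x => x.1 + x.2) h3 (fun k => k ^ 2)
    have a4 := sum_comp_fiber (fun x => x.1 - x.2) h4 (fun k => k ^ 2)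
    have a6 : ∑ x ∈ S, (x.1 + x.2) ^ 2 + ∑ x ∈ S, (x.1 - x.2) ^ 2 =
        2 * ∑ x ∈ S, x.1 ^ 2 + 2 * ∑ x ∈ S, x.2 ^ 2 := by
      rw [← sum_add_distrib, mul_sum, mul_sum, ← sum_add_distrib]
      exact sum_congr rfl fun x _ => by ring
    rw [a1, a2, a3, a4] at a6
    have a5 : ((2 * c : ℕ) : ZMod n) * ∑ k : ZMod n, k ^ 2 = 0 := by
      push_cast
      linear_combination -a6
    rw [sum_zmod (fun i => i ^ 2) (fun k => k ^ 2) (fun i => by push_cast; rfl), ← Nat.cast_mul,
      ZMod.natCast_eq_zero_iff] at a5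
    obtain ⟨q, hq⟩ := a5
    have h6 := six_sum n
    have h7 : (n : ℤ) * (3 * q) = n * (c * ((n - 1) * (2 * n - 1))) := by
      have : ((2 * c * ∑ i ∈ range n, i ^ 2 : ℕ) : ℤ) = ((n * q : ℕ) : ℤ) := by rw [hq]
      push_cast at this h6 ⊢
      linear_combination (-3) * this + (c : ℤ) * h6
    have h8 : (3 : ℤ) * q = c * ((n - 1) * (2 * n - 1)) :=
      mul_left_cancel₀ (by exact_mod_cast hn0) h7
    have h9 : (3 : ℤ) ∣ c := ⟨q - c * (6 * u ^ 2 - 3 * u), by
      rw [hu] at h8; push_cast at h8; linear_combination -h8⟩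
    exact_mod_cast h9

/-- If all fibres have at most `c` elements and there are `n c` elements, the fibres have exactly
`c` elements. -/
lemma exact_of_le {S : Finset (ZMod n × ZMod n)} {c : ℕ} (hS : S.card = n * c)
    (L : ZMod n × ZMod n → ZMod n) (hL : ∀ k, (S.filter fun x => L x = k).card ≤ c) (k : ZMod n) :
    (S.filter fun x => L x = k).card = c := by
  have h1 := card_eq_sum_card_fiberwise (s := S) (t := (univ : Finset (ZMod n))) (f := L)
    (fun _ _ => by simp)
  have h2 : ∑ k : ZMod n, (S.filter fun x => L x = k).card = ∑ _k : ZMod n, c := by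
    rw [← h1, hS]
    simp [ZMod.card]
  exact (sum_eq_sum_iff_of_le (fun k _ => hL k)).1 h2 k (mem_univ k)

omit [NeZero n] in
lemma exists_div (a c : ℕ) (ha : a = 2 ∨ a = 3) (h : a ∣ n → a ∣ c) :
    ∃ t : ZMod n, (a : ZMod n) * t = (c : ZMod n) := by
  by_cases hd : a ∣ n
  · obtain ⟨t, ht⟩ := h hd
    exact ⟨t, by rw [ht]; push_cast; ring⟩
  · have hp : a.Prime := by rcases ha with rfl | rfl <;> norm_num
    have hco : Nat.Coprime a n := (Nat.Prime.coprime_iff_not_dvd hp).2 hd
    exact ⟨(a : ZMod n)⁻¹ * c, by rw [← mul_assoc, ZMod.coe_mul_inv_eq_one a hco, one_mul]⟩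

end Pool.Agent.KS6_19.CP.Tor
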