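import Mathlib
import Pool.Agent.KS6_19.CP.Tor
import Pool.Agent.KS6_19.CP.Results.MP_712a2d_co.CoinPlacements

/-!
Pandiagonal colourings, and the small boards.
-/

namespace Pool.Agent.KS6_19.CP.Tor

open Finset

variable {n : ℕ} [NeZero n]

lemma card_fst (P : ZMod n → ZMod n → Prop) [∀ i j, Decidable (P i j)] (k : ZMod n) :
    ((univ.filter fun x : ZMod n × ZMod n => P x.1 x.2).filter fun x => x.1 = k).card =
      (univ.filter fun j => P k j).card := by
  symm
  refine card_bij (fun j _ => (k, j)) ?_ ?_ ?_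
  · intro j hj
    simpa using hj
  · intro i _ j _ h
    simpa using h
  · intro x hx
    simp only [mem_filter, mem_univ, true_and] at hx
    exact ⟨x.2, by simp [← hx.2, hx.1], by rw [← hx.2]⟩

lemma card_snd (P : ZMod n → ZMod n → Prop) [∀ i j, Decidable (P i j)] (k : ZMod n) :
    ((univ.filter fun x : ZMod n × ZMod n => P x.1 x.2).filter fun x => x.2 = k).card =
      (univ.filter fun i => P i k).card := by
  symm
  refine card_bij (fun j _ => (j, k)) ?_ ?_ ?_
  · intro j hj
    simpa using hj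
  · intro i _ j _ h
    simpa using h
  · intro x hx
    simp only [mem_filter, mem_univ, true_and] at hx
    exact ⟨x.1, by simp [← hx.2, hx.1], by rw [← hx.2]⟩

lemma card_add (P : ZMod n → ZMod n → Prop) [∀ i j, Decidable (P i j)] (k : ZMod n) :
    ((univ.filter fun x : ZMod n × ZMod n => P x.1 x.2).filter fun x => x.1 + x.2 = k).card =
      (univ.filter fun i => P i (k - i)).card := by
  symm
  refine card_bij (fun j _ => (j, k - j)) ?_ ?_ ?_
  · intro j hj
    simpa using hj
  · intro i _ j _ h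
    exact (Prod.mk.inj h).1
  · intro x hx
    simp only [mem_filter, mem_univ, true_and] at hx
    have e : k - x.1 = x.2 := by rw [← hx.2]; ring
    exact ⟨x.1, by simp [e, hx.1], by rw [e]⟩

lemma card_sub (P : ZMod n → ZMod n → Prop) [∀ i j, Decidable (P i j)] (k : ZMod n) :
    ((univ.filter fun x : ZMod n × ZMod n => P x.1 x.2).filter fun x => x.1 - x.2 = k).card =
      (univ.filter fun i => P i (i - k)).card := by
  symm
  refine card_bij (fun j _ => (j, j - k)) ?_ ?_ ?_
  · intro j hj
    simpa using hj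
  · intro i _ j _ h
    exact (Prod.mk.inj h).1
  · intro x hx
    simp only [mem_filter, mem_univ, true_and] at hx
    have e : x.1 - k = x.2 := by rw [← hx.2]; ring
    exact ⟨x.1, by simp [e, hx.1], by rw [e]⟩

/-- the four counts for the window colouring -/
lemma lines (c u : ℕ) (hu : u + c ≤ n) (hc : (2 ∣ n → 2 ∣ c) ∧ (3 ∣ n → 3 ∣ c)) (k : ZMod n) :
    (univ.filter fun j : ZMod n => u ≤ (j - 2 * k).val ∧ (j - 2 * k).val < u + c).card = c ∧
    (univ.filter fun i : ZMod n => u ≤ (k - 2 * i).val ∧ (k - 2 * i).val < u + c).card = c ∧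
    (univ.filter fun i : ZMod n => u ≤ ((k - i) - 2 * i).val ∧
      ((k - i) - 2 * i).val < u + c).card = c ∧
    (univ.filter fun i : ZMod n => u ≤ ((i - k) - 2 * i).val ∧
      ((i - k) - 2 * i).val < u + c).card = c := by
  obtain ⟨t2, h2⟩ := exists_div (n := n) 2 c (Or.inl rfl) hc.1
  obtain ⟨t3, h3⟩ := exists_div (n := n) 3 c (Or.inr rfl) hc.2
  push_cast at h2 h3
  refine ⟨?_, window_card 2 c u hu t2 h2 k, ?_, ?_⟩
  · have := window_card (-1 : ZMod n) c u hu (-(c : ZMod n)) (by ring) (-(2 * k))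
    convert this using 6 <;> ring
  · have := window_card (3 : ZMod n) c u hu t3 h3 k
    convert this using 6 <;> ring
  · have := window_card (1 : ZMod n) c u hu (c : ZMod n) (by ring) (-k)
    convert this using 6 <;> ring

/-- first residue of the block `t` -/
def off {m : ℕ} (l : Fin m → ℕ) (t : Fin m) : ℕ := ∑ i : Fin (t : ℕ), l (Fin.castLE t.2.le i)

/-- the block of a residue -/
noncomputable def colour {m : ℕ} (l : Fin m → ℕ) (h : ∑ t, l t = n) (z : ZMod n) : Fin m :=
  (finSigmaFinEquiv.symm (Fin.cast h.symm ⟨z.val, z.val_lt⟩) : Σ t : Fin m, Fin (l t)).1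

lemma colour_iff {m : ℕ} (l : Fin m → ℕ) (h : ∑ t, l t = n) (z : ZMod n) (t : Fin m) :
    colour l h z = t ↔ off l t ≤ z.val ∧ z.val < off l t + l t := by
  have key : ∀ y : Σ t : Fin m, Fin (l t), ((finSigmaFinEquiv y : Fin (∑ t, l t)) : ℕ) =
      off l y.1 + y.2 := fun y => by rw [finSigmaFinEquiv_apply]; rfl
  constructor
  · intro hc
    set y : Σ t : Fin m, Fin (l t) :=
      finSigmaFinEquiv.symm (Fin.cast h.symm ⟨z.val, z.val_lt⟩) with hy
    have h1 : finSigmaFinEquiv y = Fin.cast h.symm ⟨z.val, z.val_lt⟩ := by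
      rw [hy, Equiv.apply_symm_apply]
    have h2 := key y
    rw [h1] at h2
    have h3 : y.1 = t := hc
    have h4 : z.val = off l y.1 + y.2 := h2
    have h5 := y.2.2
    rw [← h3]
    omega
  · rintro ⟨h1, h2⟩
    have h3 : finSigmaFinEquiv (⟨t, ⟨z.val - off l t, by omega⟩⟩ : Σ t : Fin m, Fin (l t)) =
        Fin.cast h.symm ⟨z.val, z.val_lt⟩ := by
      apply Fin.ext
      rw [key]
      show off l t + (z.val - off l t) = z.val
      omega
    unfold colour
    rw [← h3, Equiv.symm_apply_apply]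

omit [NeZero n] in
lemma off_add_le {m : ℕ} (l : Fin m → ℕ) (h : ∑ t, l t = n) (t : Fin m) :
    off l t + l t ≤ n := by
  rcases Nat.eq_zero_or_pos (l t) with h0 | h0
  · rw [h0, add_zero]
    unfold off
    rw [← h]
    have : ∑ i : Fin (t : ℕ), l (Fin.castLE t.2.le i) =
        ∑ i ∈ univ.map (Fin.castLEEmb t.2.le), l i := by
      rw [sum_map]
      rfl
    rw [this]
    exact sum_le_sum_of_subset (subset_univ _)
  · have key := finSigmaFinEquiv_apply (⟨t, ⟨l t - 1, by omega⟩⟩ : Σ t : Fin m, Fin (l t))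
    have h2 := (finSigmaFinEquiv (⟨t, ⟨l t - 1, by omega⟩⟩ : Σ t : Fin m, Fin (l t))).2
    rw [key] at h2
    have h3 : off l t + (l t - 1) < ∑ t, l t := h2
    omega

/-! ### small boards -/

open Pool.Agent.R164.Coins in
lemma small_none (n : ℕ) (hn : n = 2 ∨ n = 3) (S : Finset (ℕ × ℕ)) : ¬ IsPlacement n 1 S := by
  rintro ⟨h1, h2, h3, h4, h5, h6⟩
  have hS : S ∈ (range n ×ˢ range n).powerset := by
    rw [mem_powerset]
    intro p hp
    have := h1 p hp
    rw [mem_product, mem_range, mem_range]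
    exact this
  have h7 : ∀ k ∈ range 5, (S.filter fun p => p.1 + 2 = p.2 + k).card ≤ 1 := by
    intro k _
    refine le_trans (le_of_eq ?_) (h6 ((k : ℤ) - 2))
    congr 1
    refine filter_congr fun p _ => ?_
    omega
  have h3' : ∀ a ∈ range 3, (S.filter fun p => p.1 = a).card ≤ 1 := fun a _ => h3 a
  have h4' : ∀ a ∈ range 3, (S.filter fun p => p.2 = a).card ≤ 1 := fun a _ => h4 a
  have h5' : ∀ a ∈ range 5, (S.filter fun p => p.1 + p.2 = a).card ≤ 1 := fun a _ => h5 a
  rcases hn with rfl | rfl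
  · have key : ∀ S ∈ (range 2 ×ˢ range 2 : Finset (ℕ × ℕ)).powerset,
        ¬ (S.card = 2 * 1 ∧ (∀ a ∈ range 3, (S.filter fun p => p.1 = a).card ≤ 1) ∧
          (∀ a ∈ range 3, (S.filter fun p => p.2 = a).card ≤ 1) ∧
          (∀ a ∈ range 5, (S.filter fun p => p.1 + p.2 = a).card ≤ 1) ∧
          (∀ k ∈ range 5, (S.filter fun p => p.1 + 2 = p.2 + k).card ≤ 1)) := by
      decide +kernel
    exact key S hS ⟨h2, h3', h4', h5', h7⟩
  · have key : ∀ S ∈ (range 3 ×ˢ range 3 : Finset (ℕ × ℕ)).powerset,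
        ¬ (S.card = 3 * 1 ∧ (∀ a ∈ range 3, (S.filter fun p => p.1 = a).card ≤ 1) ∧
          (∀ a ∈ range 3, (S.filter fun p => p.2 = a).card ≤ 1) ∧
          (∀ a ∈ range 5, (S.filter fun p => p.1 + p.2 = a).card ≤ 1) ∧
          (∀ k ∈ range 5, (S.filter fun p => p.1 + 2 = p.2 + k).card ≤ 1)) := by
      decide +kernel
    exact key S hS ⟨h2, h3', h4', h5', h7⟩

open Pool.Agent.R164.Coins Pool.Agent.Results.MP_712a2d_co.CoinPlacements in
lemma small_some (n c : ℕ) (hn : n < 4) (hc : c ≤ n) (h : ¬ (c = 1 ∧ (n = 2 ∨ n = 3))) :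
    ∃ S : Finset (ℕ × ℕ), R164.Coins.IsPlacement n c S := by
  interval_cases n <;> interval_cases c
  · exact of_finite (S := ∅) (by decide) (by decide) (by decide) (by decide) (by decide)
      (by decide)
  · exact of_finite (S := ∅) (by decide) (by decide) (by decide) (by decide) (by decide)
      (by decide)
  · exact of_finite (S := {(0, 0)}) (by decide) (by decide) (by decide) (by decide) (by decide)
      (by decide)
  · exact of_finite (S := ∅) (by decide) (by decide) (by decide) (by decide) (by decide)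
      (by decide)
  · exact absurd ⟨rfl, Or.inl rfl⟩ h
  · exact of_finite (S := {(0, 0), (0, 1), (1, 0), (1, 1)}) (by decide) (by decide) (by decide)
      (by decide) (by decide) (by decide)
  · exact of_finite (S := ∅) (by decide) (by decide) (by decide) (by decide) (by decide)
      (by decide)
  · exact absurd ⟨rfl, Or.inr rfl⟩ h
  · exact of_finite (S := {(0, 1), (0, 2), (1, 0), (1, 2), (2, 0), (2, 1)}) (by decide)
      (by decide) (by decide) (by decide) (by decide) (by decide)
  · exact of_finite (S := {(0, 0), (0, 1), (0, 2), (1, 0), (1, 1), (1, 2), (2, 0), (2, 1), (2, 2)})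
      (by decide) (by decide) (by decide) (by decide) (by decide) (by decide)

end Pool.Agent.KS6_19.CP.Tor
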